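import Pool.Agent.helper76.FF2.Spec

/-!
# Row ff2:DEC (MP_bbe200_nt): a partial fraction decomposition
-/

set_option autoImplicit false

namespace Pool.Agent.FF2

open Polynomial

private theorem DEC_lead {K : Type*} [Field K] (s : K[X]) (hs : s ≠ 0) :
    (X * derivative s - C (s.natDegree : K) * s).degree < s.degree := by
  rw [degree_eq_natDegree hs, degree_lt_iff_coeff_zero]
  intro m hm
  have h1 : (X * derivative s).coeff m = (m : K) * s.coeff m := by
    rcases m with _ | m
    · simp
    · rw [coeff_X_mul, coeff_derivative]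
      push_cast
      ring
  rw [coeff_sub, h1, coeff_C_mul]
  rcases Nat.eq_or_lt_of_le hm with h | h
  · rw [h, sub_self]
  · rw [coeff_eq_zero_of_natDegree_lt h, mul_zero, mul_zero, sub_zero]

theorem DEC (K : Type*) [Field K] [CharP K 2] : DEC_stmt K := by
  intro A P E s hP hE hs hA hPE hPs hdeg
  obtain ⟨D, hD⟩ : ∃ D : K[X], D = E ^ 2 * s := ⟨_, rfl⟩
  have hDm : D.Monic := by rw [hD]; exact (hE.pow 2).mul hs
  have hP2 : (P ^ 2).Monic := hP.pow 2
  have hAm : (derivative A).Monic := by rw [hA]; exact (hP.mul hE).pow 2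
  have hAs : derivative A * s = P ^ 2 * D := by rw [hA, hD]; ring
  have hsd : s.degree = (s.natDegree : WithBot ℕ) := degree_eq_natDegree hs.ne_zero
  obtain ⟨M, hM⟩ : ∃ M : K[X], M = X * (hasseDeriv 2 A * s + derivative s * derivative A) -
    C (s.natDegree : K) * (derivative A * s) := ⟨_, rfl⟩
  have hM2 : M = X * hasseDeriv 2 A * s + (X * derivative s - C (s.natDegree : K) * s) * derivative A := by
    rw [hM]
    ring
  have hMd : M.degree < (P ^ 2 * D).degree := by
    rw [← hAs, hM2]
    refine lt_of_le_of_lt (degree_add_le _ _) (max_lt ?_ ?_)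
    · have e1 : (X * hasseDeriv 2 A * s).degree = (X * hasseDeriv 2 A).degree + s.degree := degree_mul
      have e2 : (derivative A * s).degree = (derivative A).degree + s.degree := degree_mul
      rw [e1, e2, hsd]
      have h1 : (X * hasseDeriv 2 A).degree < (derivative A).degree := by
        rw [degree_eq_natDegree hAm.ne_zero]
        refine lt_of_le_of_lt degree_le_natDegree ?_
        have h2 : (X * hasseDeriv 2 A).natDegree ≤ (hasseDeriv 2 A).natDegree + 1 := by
          refine natDegree_mul_le.trans ?_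
          rw [natDegree_X]
          omega
        exact_mod_cast lt_of_le_of_lt h2 hdeg
      exact WithBot.add_lt_add_right (WithBot.coe_ne_bot) h1
    · rw [degree_mul, degree_mul, add_comm]
      rw [degree_eq_natDegree hAm.ne_zero]
      exact WithBot.add_lt_add_left (WithBot.coe_ne_bot) (DEC_lead s hs.ne_zero)
  have hco : IsCoprime (P ^ 2) D := by
    rw [hD]
    exact IsCoprime.mul_right (IsCoprime.pow hPE) (IsCoprime.pow_left hPs)
  obtain ⟨u, v, huv⟩ := hco
  have hmod := modByMonic_add_div (M * v) (P ^ 2)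
  obtain ⟨N₁, hN₁⟩ : ∃ N₁ : K[X], N₁ = (M * v) %ₘ (P ^ 2) := ⟨_, rfl⟩
  obtain ⟨N₂, hN₂⟩ : ∃ N₂ : K[X], N₂ = M * u + ((M * v) /ₘ (P ^ 2)) * D := ⟨_, rfl⟩
  have hdec : M = N₁ * D + N₂ * P ^ 2 := by
    rw [← hN₁] at hmod
    calc M = M * (u * P ^ 2 + v * D) := by rw [huv, mul_one]
      _ = M * u * P ^ 2 + (M * v) * D := by ring
      _ = M * u * P ^ 2 + (N₁ + P ^ 2 * ((M * v) /ₘ (P ^ 2))) * D := by rw [hmod]
      _ = N₁ * D + N₂ * P ^ 2 := by rw [hN₂]; ring
  have hN₁d : N₁.degree < (P ^ 2).degree := by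
    rw [hN₁]
    exact degree_modByMonic_lt _ hP2
  have hN₂d : N₂.degree < D.degree := by
    by_contra hcon
    push Not at hcon
    have h1 : (N₂ * P ^ 2).degree = (M - N₁ * D).degree := by
      rw [hdec]
      congr 1
      ring
    have h2 : (M - N₁ * D).degree < (P ^ 2 * D).degree := by
      refine lt_of_le_of_lt (degree_sub_le _ _) (max_lt hMd ?_)
      rw [degree_mul, degree_mul, degree_eq_natDegree hDm.ne_zero]
      exact WithBot.add_lt_add_right (WithBot.coe_ne_bot) hN₁d
    rw [← h1, degree_mul, degree_mul, add_comm] at h2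
    have h3 : (P ^ 2).degree + D.degree ≤ (P ^ 2).degree + N₂.degree := by
      gcongr
    exact absurd h2 (not_lt.mpr h3)
  refine ⟨N₁, N₂, hN₁d, by rw [← hD]; exact hN₂d, ?_⟩
  rw [← hD, add_assoc, ← hdec, hM]
  ring

end Pool.Agent.FF2
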